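import Mathlib

/-!
# Cycles of period three of `x (n+1) = A / x n ^ 2 + 1 / x (n-k) ^ p`

For `p = 2`, `k ≡ 1 (mod 3)` and every `A ≠ 1` the sequence `a, a / A, a / A ^ 2, a, …` with
`a ^ 3 = A ^ 2 (A ^ 3 + 1)` is a solution.
-/

set_option autoImplicit false

namespace Pool.Agent.Results.MP_7b4a8e_an.ThreeCycle

open Real

/-- For all `A > 0` with `A ≠ 1` and all `k ≡ 1 (mod 3)` the equation
`x (n+1) = A / x n ^ 2 + 1 / x (n-k) ^ p` with `p = 2` has a positive solution `x (n-k)`, `n ≥ 0`,
with prime period three. -/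
theorem result (A : ℝ) (hA : 0 < A) (hA1 : A ≠ 1) (k : ℕ) (hk : k % 3 = 1) :
    ∃ p : ℝ, 0 < p ∧ ∃ x : ℕ → ℝ, (∀ n, 0 < x n) ∧
      (∀ n, x (n + k + 1) = A / x (n + k) ^ 2 + 1 / x n ^ p) ∧
      (∀ n, x (n + 3) = x n) ∧ (∀ N, 1 ≤ N → N < 3 → ∃ n, x (n + N) ≠ x n) := by
  set a : ℝ := (A ^ 2 * (A ^ 3 + 1)) ^ (1 / 3 : ℝ) with ha
  have hpos : 0 < A ^ 2 * (A ^ 3 + 1) := by positivity
  have ha0 : 0 < a := rpow_pos_of_pos hpos _
  have ha3 : a ^ 3 = A ^ 2 * (A ^ 3 + 1) := by
    rw [ha, ← rpow_natCast, ← rpow_mul hpos.le]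
    norm_num
  have hA' : A ≠ 0 := hA.ne'
  have ha' : a ≠ 0 := ha0.ne'
  refine ⟨2, two_pos, fun n => if n % 3 = 0 then a else if n % 3 = 1 then a / A else a / A ^ 2,
    ?_, ?_, ?_, ?_⟩
  · intro n
    simp only
    split_ifs <;> positivity
  · intro n
    simp only
    rw [rpow_two]
    have h3 : n % 3 = 0 ∨ n % 3 = 1 ∨ n % 3 = 2 := by omega
    rcases h3 with h | h | h
    · have h1 : (n + k + 1) % 3 = 2 := by omega
      have h2 : (n + k) % 3 = 1 := by omega
      rw [h1, h2, h]
      norm_num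
      field_simp
      linear_combination ha3
    · have h1 : (n + k + 1) % 3 = 0 := by omega
      have h2 : (n + k) % 3 = 2 := by omega
      rw [h1, h2, h]
      norm_num
      field_simp
      linear_combination ha3
    · have h1 : (n + k + 1) % 3 = 1 := by omega
      have h2 : (n + k) % 3 = 0 := by omega
      rw [h1, h2, h]
      norm_num
      field_simp
      linear_combination ha3
  · intro n
    simp only
    rw [show (n + 3) % 3 = n % 3 by omega]
  · intro N h1 h2
    refine ⟨0, ?_⟩
    have h3 : N = 1 ∨ N = 2 := by omega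
    rcases h3 with rfl | rfl
    · norm_num
      rw [div_eq_iff hA']
      intro h
      apply hA1
      have : a * (A - 1) = 0 := by linear_combination -h
      rcases mul_eq_zero.1 this with h' | h'
      · exact absurd h' ha'
      · linarith
    · norm_num
      rw [div_eq_iff (by positivity)]
      intro h
      apply hA1
      have : a * ((A - 1) * (A + 1)) = 0 := by linear_combination -h
      rcases mul_eq_zero.1 this with h' | h'
      · exact absurd h' ha'
      · rcases mul_eq_zero.1 h' with h'' | h''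
        · linarith
        · linarith

end Pool.Agent.Results.MP_7b4a8e_an.ThreeCycle
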